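import Mathlib
import Pool.Agent.Q200.SpecGeom
import Pool.Agent.Q200.SpecCert

/-!
# A spectral graph (polytope) for the third largest eigenvalue

There is a graph `G` on 42 vertices (circulant) which is `θ`-spectral for the third largest
distinct eigenvalue `θ = (3 + √21)/2` of its adjacency matrix.
-/

namespace Pool.Agent.Results.MP_a5282b_co.ThirdEigenvalue

open Q200.SpecCert

variable {V : Type*} [Fintype V]

open Classical in
/-- The adjacency matrix of `G`, acting on real functions on the vertices. -/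
noncomputable def adjOp (G : SimpleGraph V) : Module.End ℝ (V → ℝ) :=
  (G.adjMatrix ℝ).mulVecLin

/-- The eigenspace `Eig_G(θ)`. -/
noncomputable def eig (G : SimpleGraph V) (θ : ℝ) : Submodule ℝ (V → ℝ) :=
  Module.End.eigenspace (adjOp G) θ

/-- `θ` is an eigenvalue of (the adjacency matrix of) `G`. -/
def IsEigenvalue (G : SimpleGraph V) (θ : ℝ) : Prop :=
  Module.End.HasEigenvalue (adjOp G) θ

/-- `θ` is `θ_k`, the `k`-th largest distinct eigenvalue of `G`: it is an eigenvalue and exactly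
`k - 1` distinct eigenvalues are larger. -/
def IsNthEigenvalue (G : SimpleGraph V) (k : ℕ) (θ : ℝ) : Prop :=
  IsEigenvalue G θ ∧ {μ : ℝ | IsEigenvalue G μ ∧ θ < μ}.ncard + 1 = k

/-- The columns of the matrix `Φ` (rows indexed by the vertices) form a basis of the eigenspace
`Eig_G(θ)`. -/
def IsEigenbasis (G : SimpleGraph V) (θ : ℝ) {d : ℕ} (Φ : Matrix V (Fin d) ℝ) : Prop :=
  LinearIndependent ℝ (fun (j : Fin d) (i : V) => Φ i j) ∧
    Submodule.span ℝ (Set.range fun (j : Fin d) (i : V) => Φ i j) = eig G θ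

/-- The eigenpolytope: the convex hull of the rows of `Φ`. -/
def eigenpolytope {d : ℕ} (Φ : Matrix V (Fin d) ℝ) : Set (Fin d → ℝ) :=
  convexHull ℝ (Set.range fun i : V => Φ i)

/-- `x` is a vertex (a `0`-dimensional face) of the polytope `P`. -/
def IsVertex {d : ℕ} (P : Set (Fin d → ℝ)) (x : Fin d → ℝ) : Prop :=
  x ∈ P ∧ IsExposed ℝ P {x}

/-- The segment from `x` to `y` is an edge (a `1`-dimensional face) of the polytope `P`. -/
def IsEdge {d : ℕ} (P : Set (Fin d → ℝ)) (x y : Fin d → ℝ) : Prop :=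
  x ≠ y ∧ segment ℝ x y ⊆ P ∧ IsExposed ℝ P (segment ℝ x y)

/-- `G` is `θ`-spectral: `θ` is an eigenvalue and, for every matrix `Φ` whose columns form a
basis of the eigenspace (such `Φ` exist), the map `i ↦ Φ i` is an isomorphism from `G` onto the
edge-graph of the eigenpolytope: the rows are distinct vertices of the eigenpolytope, and the
segment between two of them is an edge exactly when the two vertices are adjacent in `G`. -/
def IsSpectral (G : SimpleGraph V) (θ : ℝ) : Prop :=
  IsEigenvalue G θ ∧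
  (∃ (d : ℕ) (Φ : Matrix V (Fin d) ℝ), IsEigenbasis G θ Φ) ∧
  ∀ (d : ℕ) (Φ : Matrix V (Fin d) ℝ), IsEigenbasis G θ Φ →
    (Function.Injective fun i : V => Φ i) ∧
    (∀ i, IsVertex (eigenpolytope Φ) (Φ i)) ∧
    ∀ i j, i ≠ j → (IsEdge (eigenpolytope Φ) (Φ i) (Φ j) ↔ G.Adj i j)

theorem exists_eigenbasis (G : SimpleGraph V) (θ : ℝ) :
    ∃ (d : ℕ) (Φ : Matrix V (Fin d) ℝ), IsEigenbasis G θ Φ := by
  let b := Module.finBasis ℝ (eig G θ)
  refine ⟨Module.finrank ℝ (eig G θ), fun i j => (b j : V → ℝ) i, ?_, ?_⟩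
  · have h := b.linearIndependent
    have h2 := h.map' (eig G θ).subtype (by simp)
    exact h2
  · have h := b.span_eq
    have h2 : (Submodule.span ℝ (Set.range b)).map (eig G θ).subtype
        = Submodule.map (eig G θ).subtype ⊤ := by rw [h]
    rw [Submodule.map_span, Submodule.map_top, Submodule.range_subtype] at h2
    refine Eq.trans ?_ h2
    congr 1
    ext x
    simp only [Set.mem_range, Set.mem_image, exists_exists_eq_and]
    rfl

theorem mem_eig {u : ZMod 42 → ℝ} {μ : ℝ} :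
    u ∈ eig G μ ↔ ∀ k, op u k = μ * u k := by
  unfold eig adjOp
  rw [Module.End.mem_eigenspace_iff, Matrix.mulVecLin_apply, funext_iff]
  refine forall_congr' fun k => ?_
  let _ : DecidableRel G.Adj := Classical.decRel _
  rw [show (op u k = μ * u k ↔ (SimpleGraph.adjMatrix ℝ G).mulVec u k = μ * u k) by
    rw [mulVec_eq]]
  rfl

theorem isEigenvalue_iff (μ : ℝ) : IsEigenvalue G μ ↔
    ∃ u : ZMod 42 → ℝ, (∀ k, op u k = μ * u k) ∧ ∃ k, u k ≠ 0 := by
  constructor
  · intro h
    obtain ⟨u, hu⟩ := Module.End.HasEigenvalue.exists_hasEigenvector h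
    refine ⟨u, mem_eig.1 hu.1, ?_⟩
    by_contra hno
    push Not at hno
    exact hu.2 (funext hno)
  · rintro ⟨u, hu, k, hk⟩
    apply Module.End.hasEigenvalue_of_hasEigenvector (x := u)
    refine ⟨mem_eig.2 hu, ?_⟩
    intro h
    exact hk (by rw [h]; rfl)

theorem larger : {μ : ℝ | IsEigenvalue G μ ∧ θ < μ} = {32, 4} := by
  ext μ
  constructor
  · rintro ⟨h, hμ⟩
    obtain ⟨u, hu, hne⟩ := (isEigenvalue_iff μ).1 h
    exact big_eig u μ hu hne hμ
  · intro h
    have ht := theta_gt
    rcases h with h | h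
    · rw [h]
      refine ⟨(isEigenvalue_iff 32).2 ⟨fun _ => 1, eig32, 0, one_ne_zero⟩, by linarith⟩
    · rw [Set.mem_singleton_iff.1 h]
      refine ⟨(isEigenvalue_iff 4).2 ⟨fun x => (alt x : ℝ), eig4, 0, ?_⟩, ht.2⟩
      simp [alt]

/-- **There is a graph that is `θ_k`-spectral for `k = 3`** (so `k ≠ 2` is possible). -/
theorem result : ∃ (G : SimpleGraph (ZMod 42)) (θ : ℝ),
    IsNthEigenvalue G 3 θ ∧ IsSpectral G θ := by
  have hvert : ∀ k : ZMod 42, ∃ u ∈ eig G θ, ∀ l, l ≠ k → u l < u k := by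
    intro k
    obtain ⟨u, hu, hlt⟩ := vertex_fun k
    exact ⟨u, mem_eig.2 hu, hlt⟩
  have heig : IsEigenvalue G θ := by
    obtain ⟨u, hu, hlt⟩ := vertex_fun 0
    refine (isEigenvalue_iff θ).2 ⟨u, hu, ?_⟩
    by_contra hno
    push Not at hno
    have := hlt 1 (by decide)
    rw [hno, hno] at this
    exact lt_irrefl _ this
  refine ⟨G, θ, ⟨heig, ?_⟩, heig, exists_eigenbasis G θ, ?_⟩
  · rw [larger, Set.ncard_pair (by norm_num)]
  · intro d Φ hΦ
    have hspan := hΦ.2
    have hinj : Function.Injective fun i : ZMod 42 => Φ i :=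
      Q200.SpecGeom.injective_of_vertices (fun i => Φ i) (eig G θ) hspan hvert
    refine ⟨hinj, ?_, ?_⟩
    · intro i
      exact ⟨subset_convexHull ℝ _ ⟨i, rfl⟩,
        Q200.SpecGeom.vertex_exposed (fun i => Φ i) (eig G θ) hspan i (hvert i)⟩
    · intro i j hij
      constructor
      · intro h
        by_contra hadj
        refine Q200.SpecGeom.not_edge (fun i => Φ i) (eig G θ) hspan i j hvert ?_ h.2.2
        obtain ⟨w, hw, h0, h1, h2, h3⟩ := non_fun i j hij hadj
        exact ⟨w, hw, h0, h1, h2, fun u hu => h3 u (mem_eig.1 hu)⟩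
      · intro hadj
        refine ⟨fun h => hij (hinj h), ?_, ?_⟩
        · exact (convex_convexHull ℝ _).segment_subset
            (subset_convexHull ℝ _ ⟨i, rfl⟩) (subset_convexHull ℝ _ ⟨j, rfl⟩)
        · obtain ⟨u, hu, h0, hlt⟩ := edge_fun i j hadj
          exact Q200.SpecGeom.edge_exposed (fun i => Φ i) (eig G θ) hspan i j
            ⟨u, mem_eig.2 hu, h0, hlt⟩

end Pool.Agent.Results.MP_a5282b_co.ThirdEigenvalue
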